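import Pool.Agent.H58.CT.Basic

/-!
# Cyclic terms: targets
-/

set_option autoImplicit false
set_option linter.unusedVariables false

namespace Pool.Agent.H58.CT

/-! ### Absorption theorem -/

/-- Absorption-free algebras have a transitive term. -/
def T_TRT : Prop :=
  ∀ (𝒞 : Cln) (A : Type) [Alg 𝒞 A] [Finite A] (F : Set A), NoPrj 𝒞 → AF 𝒞 F →
    ∃ (I : Type) (_ : Finite I) (t : 𝒞.T I), ∀ (i : I), ∀ a ∈ F, ∀ b ∈ F,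
      ∃ x : I → A, (∀ j, x j ∈ F) ∧ x i = a ∧ Alg.int t x = b

/-- Centres. -/
def T_CEN : Prop :=
  ∀ (𝒞 : Cln) (A B : Type) [Alg 𝒞 A] [Alg 𝒞 B] [Finite A] [Finite B] (D : Set A) (E : Set B)
    (W : Set (A × B)), NoPrj 𝒞 → AF 𝒞 D → AF 𝒞 E → Sub 𝒞 W →
    (∀ a ∈ D, ∃ b ∈ E, (a, b) ∈ W) → (∃ a ∈ D, ∀ b ∈ E, (a, b) ∈ W) →
    ∀ a ∈ D, ∀ b ∈ E, (a, b) ∈ W

/-- Relations with common neighbours. -/
def T_SQR : Prop :=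
  ∀ (𝒞 : Cln) (A B : Type) [Alg 𝒞 A] [Alg 𝒞 B] [Finite A] [Finite B] (D : Set A) (E : Set B)
    (S : Set (A × B)), NoPrj 𝒞 → AF 𝒞 D → AF 𝒞 E → Sub 𝒞 S →
    (∀ b ∈ E, ∃ a ∈ D, (a, b) ∈ S) →
    (∀ a ∈ D, ∀ a' ∈ D, ∃ b ∈ E, (a, b) ∈ S ∧ (a', b) ∈ S) →
    ∀ a ∈ D, ∀ b ∈ E, (a, b) ∈ S

/-- The absorption theorem. -/
def T_ATH : Prop :=
  ∀ (𝒞 : Cln) (E A B : Type) [Alg 𝒞 E] [Alg 𝒞 A] [Alg 𝒞 B] [Finite E] [Finite A] [Finite B]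
    (R : Set E) (f : E → A) (g : E → B), NoPrj 𝒞 → Hm 𝒞 f → Hm 𝒞 g → Sub 𝒞 R →
    AF 𝒞 (f '' R) → AF 𝒞 (g '' R) → Lnk R f g →
    ∀ r ∈ R, ∀ r' ∈ R, ∃ q ∈ R, f q = f r ∧ g q = g r'

/-- Absorbing subuniverses of linked relations are linked. -/
def T_LNA : Prop :=
  ∀ (𝒞 : Cln) (E A B : Type) [Alg 𝒞 E] [Alg 𝒞 A] [Alg 𝒞 B] (R R' : Set E) (f : E → A)
    (g : E → B), Hm 𝒞 f → Hm 𝒞 g → Abs 𝒞 R' R → Lnk R f g → Lnk R' f g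

/-- The minimal absorbing subuniverses of a linked relation are connected. -/
def T_FEN : Prop :=
  ∀ (𝒞 : Cln) (E A B : Type) [Alg 𝒞 E] [Alg 𝒞 A] [Alg 𝒞 B] [Finite E] [Finite A] [Finite B]
    (Q : Set E) (f : E → A) (g : E → B), Hm 𝒞 f → Hm 𝒞 g → Sub 𝒞 Q → Lnk Q f g →
    ∀ N N' : Set E, Mn 𝒞 N Q → Mn 𝒞 N' Q →
      Relation.ReflTransGen (fun K K' : Set E => Mn 𝒞 K Q ∧ Mn 𝒞 K' Q ∧
        (f '' K = f '' K' ∨ g '' K = g '' K')) N N'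

/-! ### Cyclic relations on simple algebras -/

/-- Projections to two coordinates. -/
def T_LNE : Prop :=
  ∀ (𝒞 : Cln) (A : Type) [Alg 𝒞 A] [Finite A] (p : ℕ) [Fact p.Prime] (R : Set (ZMod p → A)),
    Smp 𝒞 A → Nat.card A < p → R.Nonempty → Sub 𝒞 R → (∀ r ∈ R, sh r ∈ R) →
    (∀ a : A, ∃ r ∈ R, r 0 = a) →
    (∃ a : A, (fun _ => a) ∈ R) ∨
      ∀ i j : ZMod p, i ≠ j → Lnk R (fun r => r i) (fun r => r j)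

/-- Windows and the next coordinate. -/
def T_LKD : Prop :=
  ∀ (𝒞 : Cln) (A : Type) [Alg 𝒞 A] [Finite A] (p : ℕ) [Fact p.Prime] (R : Set (ZMod p → A)),
    Smp 𝒞 A → Cyc 𝒞 R → ∀ (i : ZMod p) (k : ℕ),
      Lnk R (win i k) (fun r => r (i + (k : ZMod p))) ∨
        ∀ r ∈ R, ∀ r' ∈ R, win i k r = win i k r' → r = r'

/-- The product property. -/
def T_PRD : Prop :=
  ∀ (𝒞 : Cln) (A : Type) [Alg 𝒞 A] [Finite A] (p : ℕ) [Fact p.Prime] (R : Set (ZMod p → A)),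
    NoPrj 𝒞 → Cyc 𝒞 R → ∀ k : ℕ, LkBelow R k → ∀ N, Mn 𝒞 N R →
      ∀ (i : ZMod p) (x : Fin k → A), (∀ j : Fin k, x j ∈ co (i + ((j : ℕ) : ZMod p)) N) →
        ∃ n ∈ N, win i k n = x

/-- Connectedness by windows. -/
def T_CNN : Prop :=
  ∀ (𝒞 : Cln) (A : Type) [Alg 𝒞 A] [Finite A] (p : ℕ) [Fact p.Prime] (R : Set (ZMod p → A)),
    NoPrj 𝒞 → Cyc 𝒞 R → ∀ k : ℕ, k < p → LkBelow R k → ∀ N N', Mn 𝒞 N R → Mn 𝒞 N' R →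
      Relation.ReflTransGen (WStp 𝒞 R k) N N'

/-- Counting fixed points. -/
def T_CNT : Prop :=
  ∀ (A : Type) [Finite A] [Nonempty A] (p : ℕ) [Fact p.Prime] (R : Set (ZMod p → A)),
    Nat.card A < p → (∀ r ∈ R, sh r ∈ R) → ∀ (i : ZMod p) (k : ℕ),
      (∀ r ∈ R, ∀ r' ∈ R, win i k r = win i k r' → r = r') →
      (∀ x : Fin k → A, ∃ r ∈ R, win i k r = x) → ∃ a : A, (fun _ => a) ∈ R

/-! ### Loops of minimal absorbing subuniverses -/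

section loops

variable {E : Type}

/-- the elements of `V` which are reached from `W` by one step of `S` -/
def nx (S : Set (E × E)) (V W : Set E) : Set E := {y | y ∈ V ∧ ∃ x ∈ W, (x, y) ∈ S}

/-- Every element of `V` has a predecessor and a successor in `V`. -/
def Smooth (S : Set (E × E)) (V : Set E) : Prop :=
  (∀ x ∈ V, ∃ y ∈ V, (x, y) ∈ S) ∧ ∀ y ∈ V, ∃ x ∈ V, (x, y) ∈ S

/-- From every absorbing subuniverse of `V` all of `V` is reached after `n` steps, for all large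
`n`. -/
def Mix (𝒞 : Cln) [Alg 𝒞 E] (S : Set (E × E)) (V : Set E) : Prop :=
  ∀ W, Abs 𝒞 W V → ∃ n₀ : ℕ, ∀ n, n₀ ≤ n → (nx S V)^[n] W = V

end loops

/-- Mixing is inherited by smooth absorbing subuniverses. -/
def T_LBA : Prop :=
  ∀ (𝒞 : Cln) (E : Type) [Alg 𝒞 E] [Finite E] (S : Set (E × E)) (V C : Set E), Sub 𝒞 S →
    Sub 𝒞 V → Smooth S V → Mix 𝒞 S V → Abs 𝒞 C V → Smooth S C → Mix 𝒞 S C

/-- Proper smooth absorbing subuniverses. -/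
def T_LBC : Prop :=
  ∀ (𝒞 : Cln) (E : Type) [Alg 𝒞 E] [Finite E] (S : Set (E × E)) (V B : Set E), Sub 𝒞 S →
    Sub 𝒞 V → Smooth S V → Mix 𝒞 S V → Abs 𝒞 B V → B ≠ V →
    ∃ C, Abs 𝒞 C V ∧ C ≠ V ∧ Smooth S C

/-- Loops. -/
def T_LBK : Prop :=
  ∀ (𝒞 : Cln) (E : Type) [Alg 𝒞 E] [Finite E] (S : Set (E × E)) (V : Set E), Sub 𝒞 S →
    V.Nonempty → Sub 𝒞 V → Smooth S V → Mix 𝒞 S V →
    ∃ N, Mn 𝒞 N V ∧ ∃ x ∈ N, ∃ y ∈ N, (x, y) ∈ S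

/-- the relation `r' j = r (j + 1)` for all `j ≠ - 1` on `R` -/
def shS {A : Type} {p : ℕ} (R : Set (ZMod p → A)) : Set ((ZMod p → A) × (ZMod p → A)) :=
  {q | q.1 ∈ R ∧ q.2 ∈ R ∧ ∀ j : ZMod p, j ≠ -1 → q.2 j = q.1 (j + 1)}

/-- A mixing subuniverse. -/
def T_AMP : Prop :=
  ∀ (𝒞 : Cln) (A : Type) [Alg 𝒞 A] [Finite A] (p : ℕ) [Fact p.Prime] (R : Set (ZMod p → A)),
    R.Nonempty → Sub 𝒞 R → (∀ r ∈ R, sh r ∈ R) →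
    (∀ N N', Mn 𝒞 N R → Mn 𝒞 N' R → Relation.ReflTransGen (WStp 𝒞 R (p - 1)) N N') →
    ∃ V, Abs 𝒞 V R ∧ Smooth (shS R) V ∧ Mix 𝒞 (shS R) V

/-! ### Assembly -/

/-- The simple case. -/
def T_SIM : Prop :=
  ∀ (𝒞 : Cln) (A : Type) [Alg 𝒞 A] [Finite A] (p : ℕ) [Fact p.Prime] (R : Set (ZMod p → A)),
    NoPrj 𝒞 → Smp 𝒞 A → Nat.card A < p → Cyc 𝒞 R →
    (∃ a : A, (fun _ => a) ∈ R) ∨ ∃ M : Set A, Sub 𝒞 M ∧ M ≠ Set.univ ∧ ∃ r ∈ R, ∀ j, r j ∈ M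

/-- Cyclic relations on algebras with less than `n` elements contain constant tuples. -/
def CC (𝒞 : Cln) (p n : ℕ) : Prop :=
  ∀ (B : Type) [Alg 𝒞 B] [Finite B] (Q : Set (ZMod p → B)), Nat.card B < n → Q.Nonempty →
    Sub 𝒞 Q → (∀ r ∈ Q, sh r ∈ Q) → ∃ b : B, (fun _ => b) ∈ Q

/-- Passing to a subalgebra. -/
def T_SBA : Prop :=
  ∀ (𝒞 : Cln) (A : Type) [Alg 𝒞 A] [Finite A] (p : ℕ) [Fact p.Prime] (R : Set (ZMod p → A))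
    (M : Set A), CC 𝒞 p (Nat.card A) → Sub 𝒞 R → (∀ r ∈ R, sh r ∈ R) → Sub 𝒞 M →
    M ≠ Set.univ → (∃ r ∈ R, ∀ j, r j ∈ M) → ∃ a : A, (fun _ => a) ∈ R

/-- Passing to a quotient. -/
def T_QUO : Prop :=
  ∀ (𝒞 : Cln) (A : Type) [Alg 𝒞 A] [Finite A] (p : ℕ) [Fact p.Prime] (R : Set (ZMod p → A))
    (e : A → A → Prop), CC 𝒞 p (Nat.card A) → R.Nonempty → Sub 𝒞 R → (∀ r ∈ R, sh r ∈ R) →
    Cong 𝒞 e → (∃ a b, e a b ∧ a ≠ b) → (∃ a b, ¬ e a b) →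
    ∃ M : Set A, Sub 𝒞 M ∧ M ≠ Set.univ ∧ ∃ r ∈ R, ∀ j, r j ∈ M

/-- Cyclic relations contain constant tuples. -/
def T_IND : Prop :=
  ∀ (𝒞 : Cln) (A : Type) [Alg 𝒞 A] [Finite A] (p : ℕ) [Fact p.Prime] (R : Set (ZMod p → A)),
    NoPrj 𝒞 → Nat.card A < p → R.Nonempty → Sub 𝒞 R → (∀ r ∈ R, sh r ∈ R) →
    ∃ a : A, (fun _ => a) ∈ R

/-- Cyclic terms for finitely many algebras. -/
def T_TRM : Prop :=
  ∀ (𝒞 : Cln) (S : Type) [Finite S] (A : S → Type) [∀ s, Alg 𝒞 (A s)] [∀ s, Finite (A s)]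
    (p : ℕ) [Fact p.Prime], NoPrj 𝒞 → (∀ s, Nat.card (A s) < p) →
    ∃ t : 𝒞.T (ZMod p), ∀ (s : S) (x : ZMod p → A s), Alg.int t (sh x) = Alg.int t x

/-- The clone `𝒞` acts on the algebras `A s` like a clone without homomorphism to the projections. -/
def NoPrjOn (𝒞 : Cln) {S : Type} (A : S → Type) [∀ s, Alg 𝒞 (A s)] : Prop :=
  ¬ ∃ ι : ∀ (I : Type) [Finite I], 𝒞.T I → I,
    (∀ (I : Type) [Finite I] (i : I), ι I (𝒞.pr i) = i) ∧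
    (∀ (I J : Type) [Finite I] [Finite J] (t : 𝒞.T I) (s : I → 𝒞.T J),
      ι J (𝒞.comp t s) = ι J (s (ι I t))) ∧
    ∀ (I : Type) [Finite I] (t t' : 𝒞.T I),
      (∀ (s : S) (x : I → A s), Alg.int t x = Alg.int t' x) → ι I t = ι I t'

/-- Cyclic terms, relative form. -/
def T_TRN : Prop :=
  ∀ (𝒞 : Cln) (S : Type) [Finite S] (A : S → Type) [∀ s, Alg 𝒞 (A s)] [∀ s, Finite (A s)]
    (p : ℕ) [Fact p.Prime], NoPrjOn 𝒞 A → (∀ s, Nat.card (A s) < p) →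
    ∃ t : 𝒞.T (ZMod p), ∀ (s : S) (x : ZMod p → A s), Alg.int t (sh x) = Alg.int t x

end Pool.Agent.H58.CT
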