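import Pool.Agent.H58.CT.Targets

/-!
# The absorption theorem
-/

set_option autoImplicit false
set_option linter.unusedVariables false

namespace Pool.Agent.H58.CT.ATH

open Pool.Agent.H58.CT

/-- `n` steps of the relation `L` which start in `D` -/
def Pw {A : Type} (D : Set A) (L : Set (A × A)) : ℕ → Set (A × A)
  | 0 => {q | q.1 ∈ D ∧ q.1 = q.2}
  | n + 1 => {q | ∃ x, (q.1, x) ∈ Pw D L n ∧ (x, q.2) ∈ L}

section

variable {A : Type} {D : Set A} {L : Set (A × A)}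

theorem Pw.add {m n : ℕ} {a c : A} (hD : ∀ x y, (x, y) ∈ L → y ∈ D) :
    (a, c) ∈ Pw D L (m + n) → ∃ b, (a, b) ∈ Pw D L m ∧ (b, c) ∈ Pw D L n := by
  have hmem : ∀ m (a b : A), (a, b) ∈ Pw D L m → b ∈ D := by
    intro m
    induction m with
    | zero =>
      rintro a b ⟨h1, h2⟩
      have h3 : a = b := h2
      rw [← h3]
      exact h1
    | succ m ih =>
      rintro a b ⟨x, _, h2⟩
      exact hD _ _ h2
  induction n generalizing c with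
  | zero =>
    intro h
    exact ⟨c, h, hmem m a c h, rfl⟩
  | succ n ih =>
    rintro ⟨x, h1, h2⟩
    obtain ⟨b, h3, h4⟩ := ih h1
    exact ⟨b, h3, x, h4, h2⟩

theorem Pw.comp {m n : ℕ} {a b c : A} (h : (a, b) ∈ Pw D L m) (h' : (b, c) ∈ Pw D L n) :
    (a, c) ∈ Pw D L (m + n) := by
  induction n generalizing c with
  | zero =>
    obtain ⟨_, h2⟩ := h'
    have h3 : b = c := h2
    rw [← h3]
    exact h
  | succ n ih =>
    obtain ⟨x, h1, h2⟩ := h'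
    exact ⟨x, ih h1, h2⟩

theorem Pw.refl (hL : ∀ x ∈ D, (x, x) ∈ L) {a : A} (ha : a ∈ D) (n : ℕ) : (a, a) ∈ Pw D L n := by
  induction n with
  | zero => exact ⟨ha, rfl⟩
  | succ n ih => exact ⟨a, ih, hL a ha⟩

theorem Pw.mem_left {n : ℕ} {a c : A} (h : (a, c) ∈ Pw D L n) : a ∈ D := by
  induction n generalizing c with
  | zero => exact h.1
  | succ n ih =>
    obtain ⟨x, h1, _⟩ := h
    exact ih h1

theorem Pw.mem_right (hD : ∀ x y, (x, y) ∈ L → y ∈ D) {n : ℕ} {a c : A}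
    (h : (a, c) ∈ Pw D L n) : c ∈ D := by
  cases n with
  | zero =>
    obtain ⟨h1, h2⟩ := h
    have h3 : a = c := h2
    rw [← h3]
    exact h1
  | succ n =>
    obtain ⟨x, _, h2⟩ := h
    exact hD _ _ h2

theorem Pw.symm (hD : ∀ x y, (x, y) ∈ L → y ∈ D) (hL : ∀ x ∈ D, (x, x) ∈ L)
    (hs : ∀ x y, (x, y) ∈ L → (y, x) ∈ L) {n : ℕ} {a c : A}
    (h : (a, c) ∈ Pw D L n) : (c, a) ∈ Pw D L n := by
  induction n generalizing c with
  | zero =>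
    obtain ⟨h1, h2⟩ := h
    have h3 : a = c := h2
    rw [← h3]
    exact ⟨h1, rfl⟩
  | succ n ih =>
    obtain ⟨x, h1, h2⟩ := h
    have h3 : (c, x) ∈ Pw D L 1 := ⟨c, ⟨hD _ _ h2, rfl⟩, hs _ _ h2⟩
    have h4 := Pw.comp h3 (ih h1)
    rwa [Nat.add_comm] at h4

theorem Pw.mono (hD : ∀ x y, (x, y) ∈ L → y ∈ D) (hL : ∀ x ∈ D, (x, x) ∈ L) {m n : ℕ}
    (hmn : m ≤ n) {a c : A} (h : (a, c) ∈ Pw D L m) : (a, c) ∈ Pw D L n := by
  obtain ⟨k, rfl⟩ := Nat.exists_eq_add_of_le hmn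
  exact Pw.comp h (Pw.refl hL (Pw.mem_right hD h) k)

theorem Pw.sub {𝒞 : Cln} [Alg 𝒞 A] (hD : Sub 𝒞 D) (hL : Sub 𝒞 L) (n : ℕ) :
    Sub 𝒞 (Pw D L n) := by
  induction n with
  | zero =>
    intro I _ t x hx
    refine ⟨hD I t _ fun i => (hx i).1, ?_⟩
    change Alg.int t (fun i => (x i).1) = Alg.int t (fun i => (x i).2)
    congr 1
    funext i
    exact (hx i).2
  | succ n ih =>
    intro I _ t x hx
    choose y hy using hx
    refine ⟨Alg.int t y, ?_, ?_⟩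
    · exact ih I t (fun i => ((x i).1, y i)) fun i => (hy i).1
    · exact hL I t (fun i => (y i, (x i).2)) fun i => (hy i).2

end

theorem pf_ATH (hSQR : T_SQR) : T_ATH := by
  intro 𝒞 E A B _ _ _ _ _ _ R f g hNo hf hg hR hAD hAE hlnk
  classical
  set S : Set (A × B) := (fun e => (f e, g e)) '' R with hS
  have hpair : Hm 𝒞 (fun e : E => ((f e, g e) : A × B)) := by
    intro I _ t x
    exact Prod.ext (hf I t x) (hg I t x)
  have hSs : Sub 𝒞 S := sub_image hpair hR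
  set D : Set A := f '' R with hD
  set D' : Set B := g '' R with hD'
  have hSD : ∀ a b, (a, b) ∈ S → a ∈ D ∧ b ∈ D' := by
    rintro a b ⟨e, he, h⟩
    obtain ⟨h1, h2⟩ := Prod.ext_iff.1 h
    exact ⟨⟨e, he, h1⟩, ⟨e, he, h2⟩⟩
  set L : Set (A × A) := {q | ∃ b, (q.1, b) ∈ S ∧ (q.2, b) ∈ S} with hLdef
  have hLs : Sub 𝒞 L := by
    intro I _ t x hx
    choose y hy using hx
    exact ⟨Alg.int t y, hSs I t (fun i => ((x i).1, y i)) fun i => (hy i).1,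
      hSs I t (fun i => ((x i).2, y i)) fun i => (hy i).2⟩
  have hLD : ∀ x y, (x, y) ∈ L → y ∈ D := by
    rintro x y ⟨b, _, h2⟩
    exact (hSD _ _ h2).1
  have hLr : ∀ x ∈ D, (x, x) ∈ L := by
    rintro x ⟨e, he, rfl⟩
    exact ⟨g e, ⟨e, he, rfl⟩, ⟨e, he, rfl⟩⟩
  have hLsy : ∀ x y, (x, y) ∈ L → (y, x) ∈ L := by
    rintro x y ⟨b, h1, h2⟩
    exact ⟨b, h2, h1⟩
  -- paths
  have hpath : ∀ r ∈ R, ∀ r', Relation.ReflTransGen (Stp R f g) r r' →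
      ∃ n, (f r, f r') ∈ Pw D L n := by
    intro r hr r' h
    induction h with
    | refl => exact ⟨0, ⟨r, hr, rfl⟩, rfl⟩
    | tail h1 h2 ih =>
      rename_i b c
      obtain ⟨n, hn⟩ := ih
      obtain ⟨hb, hc, h3 | h3⟩ := h2
      · rw [← h3]
        exact ⟨n, hn⟩
      · refine ⟨n + 1, f b, hn, g b, ⟨b, hb, rfl⟩, ?_⟩
        change (f c, g b) ∈ S
        rw [h3]
        exact ⟨c, hc, rfl⟩
  have hall : ∃ n, 1 ≤ n ∧ ∀ a ∈ D, ∀ c ∈ D, (a, c) ∈ Pw D L n := by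
    have h1 : ∀ q : A × A, ∃ n, q.1 ∈ D → q.2 ∈ D → q ∈ Pw D L n := by
      rintro ⟨a, c⟩
      by_cases h : a ∈ D ∧ c ∈ D
      · obtain ⟨⟨r, hr, rfl⟩, ⟨r', hr', rfl⟩⟩ := h
        obtain ⟨n, hn⟩ := hpath r hr r' (hlnk r hr r' hr')
        exact ⟨n, fun _ _ => hn⟩
      · exact ⟨0, fun h2 h3 => (h ⟨h2, h3⟩).elim⟩
    choose n hn using h1
    have hfin := Fintype.ofFinite (A × A)
    refine ⟨Finset.univ.sup n + 1, by omega, fun a ha c hc => ?_⟩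
    exact Pw.mono hLD hLr (le_trans (Finset.le_sup (Finset.mem_univ (a, c))) (Nat.le_succ _))
      (hn (a, c) ha hc)
  have hdown : ∀ n, (∀ a ∈ D, ∀ c ∈ D, (a, c) ∈ Pw D L (n + 1)) →
      ∀ a ∈ D, ∀ c ∈ D, (a, c) ∈ Pw D L 1 := by
    intro n
    induction n with
    | zero => exact fun h => h
    | succ n ih =>
      intro h
      refine ih ?_
      refine hSQR 𝒞 A A D D (Pw D L (n + 1)) hNo hAD hAD (Pw.sub hAD.2.1 hLs (n + 1))
        (fun b hb => ⟨b, hb, Pw.refl hLr hb _⟩) ?_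
      intro a ha a' ha'
      have h2 : (a, a') ∈ Pw D L ((n + 1) + (n + 1)) :=
        Pw.mono hLD hLr (by omega) (h a ha a' ha')
      obtain ⟨b, h3, h4⟩ := Pw.add hLD h2
      exact ⟨b, Pw.mem_right hLD h3, h3, Pw.symm hLD hLr hLsy h4⟩
  obtain ⟨n, hn1, hn⟩ := hall
  obtain ⟨n, rfl⟩ := Nat.exists_eq_add_of_le' hn1
  have h1 := hdown n hn
  have h2 : ∀ a ∈ D, ∀ a' ∈ D, ∃ b ∈ D', (a, b) ∈ S ∧ (a', b) ∈ S := by
    intro a ha a' ha'
    obtain ⟨x, h3, b, h4, h5⟩ := h1 a ha a' ha'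
    have h6 : a = x := h3.2
    refine ⟨b, (hSD _ _ h5).2, ?_, h5⟩
    rw [h6]
    exact h4
  have h3 := hSQR 𝒞 A B D D' S hNo hAD hAE hSs (by
    rintro b ⟨e, he, rfl⟩
    exact ⟨f e, ⟨e, he, rfl⟩, ⟨e, he, rfl⟩⟩) h2
  intro r hr r' hr'
  obtain ⟨q, hq, h4⟩ := h3 (f r) ⟨r, hr, rfl⟩ (g r') ⟨r', hr', rfl⟩
  obtain ⟨h5, h6⟩ := Prod.ext_iff.1 h4
  exact ⟨q, hq, h5, h6⟩

end Pool.Agent.H58.CT.ATH
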