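import Pool.Agent.H58.CT.Targets

/-!
# The minimal absorbing subuniverses of a linked relation are connected
-/

set_option autoImplicit false
set_option linter.unusedVariables false

namespace Pool.Agent.H58.CT.FEN

open Pool.Agent.H58.CT

/-- the elements of `Q` with the same value of `h` as an element of `Y` -/
def ex {E C : Type} (h : E → C) (Q Y : Set E) : Set E := {q | q ∈ Q ∧ ∃ q' ∈ Y, h q = h q'}

section

variable {𝒞 : Cln} {E C : Type} [Alg 𝒞 E] [Alg 𝒞 C] {h : E → C} {Q Y : Set E}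

theorem ex_abs (hh : Hm 𝒞 h) (hQ : Sub 𝒞 Q) (hY : Abs 𝒞 Y Q) : Abs 𝒞 (ex h Q Y) Q := by
  classical
  obtain ⟨hne, hYs, hYQ, I, hI, t, ht⟩ := hY
  refine ⟨?_, ?_, fun q hq => hq.1, I, hI, t, ?_⟩
  · obtain ⟨y, hy⟩ := hne
    exact ⟨y, hYQ hy, y, hy, rfl⟩
  · intro J _ s x hx
    choose y hy using fun j => (hx j).2
    refine ⟨hQ J s x fun j => (hx j).1, Alg.int s y, hYs J s y fun j => (hy j).1, ?_⟩
    rw [hh, hh]
    congr 1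
    funext j
    exact (hy j).2
  · intro i x hx hx'
    have h1 : ∀ j, ∃ y, y ∈ Q ∧ (j ≠ i → y ∈ Y) ∧ h (x j) = h y := by
      intro j
      by_cases hj : j = i
      · exact ⟨x j, hx j, fun h => (h hj).elim, rfl⟩
      · obtain ⟨_, y, hy, he⟩ := hx' j hj
        exact ⟨y, hYQ hy, fun _ => hy, he⟩
    choose y hy using h1
    refine ⟨hQ I t x hx, Alg.int t y, ht i y (fun j => (hy j).1) fun j hj => (hy j).2.1 hj, ?_⟩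
    rw [hh, hh]
    congr 1
    funext j
    exact (hy j).2.2

theorem ex_conn [Finite E] (hh : Hm 𝒞 h) (hQ : Sub 𝒞 Q) (hY : Abs 𝒞 Y Q) {N' : Set E}
    (hN' : Mn 𝒞 N' Q) (hm : (N' ∩ ex h Q Y).Nonempty) :
    ∃ N'', Mn 𝒞 N'' Q ∧ (N'' ∩ Y).Nonempty ∧ h '' N'' = h '' N' := by
  obtain ⟨q, hq, hqQ, q', hq', he⟩ := hm
  have hYQ := hY.2.2.1
  have h1 : q' ∈ Q ∩ h ⁻¹' (h '' N') := ⟨hYQ hq', ⟨q, hq, he⟩⟩
  have h2 : Abs 𝒞 (Q ∩ h ⁻¹' (h '' N')) Q :=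
    abs_preimage hh hQ (abs_image hh hN'.1) (fun a ha => ⟨a, ha, rfl⟩) ⟨q', h1⟩
  have h3 : Abs 𝒞 (Y ∩ (Q ∩ h ⁻¹' (h '' N'))) Q := abs_inter hY h2 ⟨q', hq', h1⟩
  obtain ⟨N'', hN''⟩ := exists_mn h3.2.1 h3.1
  have h4 : Mn 𝒞 N'' Q := Mn.trans hN'' h3
  obtain ⟨z, hz⟩ := hN''.1.1
  have hz' := hN''.1.2.2.1 hz
  refine ⟨N'', h4, ⟨z, hz, hz'.1⟩, ?_⟩
  exact Mn.eq (Mn.image hh h4) (Mn.image hh hN') ⟨h z, ⟨z, hz, rfl⟩, hz'.2.2⟩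

end

theorem pf_FEN : T_FEN := by
  intro 𝒞 E A B _ _ _ _ _ _ Q f g hf hg hQ hlnk N N' hN hN'
  classical
  let st : Set E → Set E → Prop := fun K K' => Mn 𝒞 K Q ∧ Mn 𝒞 K' Q ∧
    (f '' K = f '' K' ∨ g '' K = g '' K')
  let good : Set E → Prop := fun Y => Abs 𝒞 Y Q ∧
    ∀ K, Mn 𝒞 K Q → (K ∩ Y).Nonempty → Relation.ReflTransGen st N K
  have h0 : good N := by
    refine ⟨hN.1, fun K hK hm => ?_⟩
    have h1 : K = N := Mn.eq hK hN hm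
    rw [h1]
  have hfin : {Y : Set E | good Y}.Finite := Set.toFinite _
  obtain ⟨Y, hY, hmax⟩ := hfin.exists_maximal ⟨N, h0⟩
  have hYg : good Y := hY
  have hsub : ∀ (C : Type) (h : E → C), Y ⊆ ex h Q Y := fun C h q hq =>
    ⟨hYg.1.2.2.1 hq, q, hq, rfl⟩
  have hF : ex f Q Y ⊆ Y := by
    refine hmax ⟨ex_abs hf hQ hYg.1, fun K hK hm => ?_⟩ (hsub A f)
    obtain ⟨K', h1, h2, h3⟩ := ex_conn hf hQ hYg.1 hK hm
    exact (hYg.2 K' h1 h2).tail ⟨h1, hK, Or.inl h3⟩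
  have hG : ex g Q Y ⊆ Y := by
    refine hmax ⟨ex_abs hg hQ hYg.1, fun K hK hm => ?_⟩ (hsub B g)
    obtain ⟨K', h1, h2, h3⟩ := ex_conn hg hQ hYg.1 hK hm
    exact (hYg.2 K' h1 h2).tail ⟨h1, hK, Or.inr h3⟩
  have hcl : ∀ a b, Stp Q f g a b → a ∈ Y → b ∈ Y := by
    rintro a b ⟨ha, hb, h1 | h1⟩ haY
    · exact hF ⟨hb, a, haY, h1.symm⟩
    · exact hG ⟨hb, a, haY, h1.symm⟩
  obtain ⟨y, hy⟩ := hYg.1.1
  have hall : ∀ b ∈ Q, b ∈ Y := by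
    intro b hb
    have h1 := hlnk y (hYg.1.2.2.1 hy) b hb
    induction h1 with
    | refl => exact hy
    | tail h2 h3 ih => exact hcl _ _ h3 (ih h3.1)
  obtain ⟨z, hz⟩ := hN'.1.1
  exact hYg.2 N' hN' ⟨z, hz, hall z (hN'.1.2.2.1 hz)⟩

end Pool.Agent.H58.CT.FEN
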