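import Pool.Agent.H58.CT.Asm
import Pool.Agent.H58.CT.ATH
import Pool.Agent.H58.CT.FEN
import Pool.Agent.H19.CT.TRT
import Pool.Agent.H19.CT.CEN
import Pool.Agent.H19.CT.SQR
import Pool.Agent.H19.CT.CNN
import Pool.Agent.H19.CT.CNT
import Pool.Agent.H33.CT.LBA
import Pool.Agent.H40.CT.SIM
import Pool.Agent.H48.CT.LBK
import Pool.Agent.H49.CT.AMP
import Pool.Agent.H56.CT.TRN
import Pool.Agent.H6.CT.PRD
import Pool.Agent.H60.CT.QUO
import Pool.Agent.H60.CT.TRM
import Pool.Agent.H64.CT.LNA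
import Pool.Agent.H69.CT.LBC
import Pool.Agent.H77.CT.LNE
import Pool.Agent.H88.CT.SBA
import Pool.Agent.H89.CT.IND
import Pool.Agent.H92.CT.LKD

/-!
# The theorem on cyclic terms
-/

set_option autoImplicit false

namespace Pool.Agent.H58.CT

/-- Cyclic terms of finite idempotent algebras (relative form): a clone which acts on finitely many
finite idempotent algebras with less than `p` elements like a clone without homomorphism to the
projections has a term of the prime arity `p` which is invariant under cyclic shifts in all of these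
algebras. -/
theorem cyclic_terms : T_TRN :=
  asm Pool.Agent.H19.CT.TRT.pf_TRT Pool.Agent.H19.CT.CEN.pf_CEN Pool.Agent.H19.CT.SQR.pf_SQR
    Pool.Agent.H58.CT.ATH.pf_ATH Pool.Agent.H64.CT.pf_LNA Pool.Agent.H58.CT.FEN.pf_FEN
    Pool.Agent.H77.CT.pf_LNE Pool.Agent.H92.CT.pf_LKD Pool.Agent.H6.CT.pf_PRD
    Pool.Agent.H19.CT.CNN.pf_CNN Pool.Agent.H19.CT.CNT.pf_CNT Pool.Agent.H33.CT.pf_LBA
    Pool.Agent.H69.CT.pf_LBC Pool.Agent.H48.CT.pf_LBK Pool.Agent.H49.CT.pf_AMP
    Pool.Agent.H40.CT.pf_SIM Pool.Agent.H88.CT.pf_SBA Pool.Agent.H60.CT.pf_QUO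
    Pool.Agent.H89.CT.pf_IND Pool.Agent.H60.CT.pf_TRM Pool.Agent.H56.CT.pf_TRN

end Pool.Agent.H58.CT
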