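import Pool.Agent.H58.CT.Targets

/-!
# Assembly: cyclic terms from the targets
-/

set_option autoImplicit false

namespace Pool.Agent.H58.CT

theorem asm (hTRT : T_TRT) (hCEN : T_TRT → T_CEN) (hSQR : T_CEN → T_SQR) (hATH : T_SQR → T_ATH)
    (hLNA : T_LNA) (hFEN : T_FEN) (hLNE : T_LNE) (hLKD : T_LKD)
    (hPRD : T_ATH → T_LNA → T_PRD) (hCNN : T_LNA → T_FEN → T_PRD → T_CNN) (hCNT : T_CNT)
    (hLBA : T_LBA) (hLBC : T_LBC) (hLBK : T_LBA → T_LBC → T_LBK) (hAMP : T_AMP)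
    (hSIM : T_LKD → T_PRD → T_CNN → T_CNT → T_LBK → T_AMP → T_SIM)
    (hSBA : T_SBA) (hQUO : T_QUO) (hIND : T_LNE → T_SIM → T_SBA → T_QUO → T_IND)
    (hTRM : T_IND → T_TRM) (hTRN : T_TRM → T_TRN) : T_TRN := by
  have cen := hCEN hTRT
  have ath := hATH (hSQR cen)
  have prd := hPRD ath hLNA
  have cnn := hCNN hLNA hFEN prd
  have sim := hSIM hLKD prd cnn hCNT (hLBK hLBA hLBC) hAMP
  exact hTRN (hTRM (hIND hLNE sim hSBA hQUO))

end Pool.Agent.H58.CT
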