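import Pool.Agent.H58.CT.Defs

/-!
# Basic facts on absorption
-/

set_option autoImplicit false
set_option linter.unusedVariables false

namespace Pool.Agent.H58.CT

section basic

variable {𝒞 : Cln} {A B : Type} [Alg 𝒞 A] [Alg 𝒞 B]

/-- star composition: `t` outside, `s` inside -/
def star (𝒞 : Cln) {I J : Type} (t : 𝒞.T I) (s : 𝒞.T J) : 𝒞.T (I × J) :=
  𝒞.comp t (fun i => 𝒞.comp s (fun j => 𝒞.pr (i, j)))

theorem int_star {I J : Type} [Finite I] [Finite J] (t : 𝒞.T I) (s : 𝒞.T J) (x : I × J → A) :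
    Alg.int (star 𝒞 t s) x = Alg.int t (fun i => Alg.int s (fun j => x (i, j))) := by
  unfold star
  rw [Alg.int_comp]
  congr 1
  funext i
  rw [Alg.int_comp]
  congr 1
  funext j
  exact Alg.int_pr _ _

theorem sub_inter {D E : Set A} (hD : Sub 𝒞 D) (hE : Sub 𝒞 E) : Sub 𝒞 (D ∩ E) :=
  fun I _ t x hx => ⟨hD I t x fun i => (hx i).1, hE I t x fun i => (hx i).2⟩

theorem sub_univ : Sub 𝒞 (Set.univ : Set A) := fun _ _ _ _ _ => Set.mem_univ _

theorem sub_preimage {f : A → B} (hf : Hm 𝒞 f) {E : Set B} (hE : Sub 𝒞 E) :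
    Sub 𝒞 (f ⁻¹' E) := by
  intro I _ t x hx
  change f _ ∈ E
  rw [hf]
  exact hE I t _ hx

theorem sub_image {f : A → B} (hf : Hm 𝒞 f) {D : Set A} (hD : Sub 𝒞 D) : Sub 𝒞 (f '' D) := by
  intro I _ t x hx
  choose y hy using hx
  refine ⟨Alg.int t y, hD I t y fun i => (hy i).1, ?_⟩
  rw [hf]
  congr 1
  funext i
  exact (hy i).2

/-- Intersections of absorbing subuniverses. -/
theorem abs_inter {N N' D : Set A} (h : Abs 𝒞 N D) (h' : Abs 𝒞 N' D) (hne : (N ∩ N').Nonempty) :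
    Abs 𝒞 (N ∩ N') D := by
  obtain ⟨_, hN, hND, I, hI, t, ht⟩ := h
  obtain ⟨_, hN', hND', J, hJ, s, hs⟩ := h'
  refine ⟨hne, sub_inter hN hN', fun a ha => hND ha.1, I × J, inferInstance, star 𝒞 t s, ?_⟩
  rintro ⟨i, j⟩ x hx hx'
  rw [int_star]
  have inner : ∀ i', i' ≠ i → Alg.int s (fun j' => x (i', j')) ∈ N ∩ N' := fun i' hi' =>
    sub_inter hN hN' J s _ fun j' => hx' (i', j') fun e => hi' (Prod.ext_iff.1 e).1
  have bad : Alg.int s (fun j' => x (i, j')) ∈ N' := hs j _ (fun j' => hx _) fun j' hj' =>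
    (hx' (i, j') fun e => hj' (Prod.ext_iff.1 e).2).2
  refine ⟨ht i _ (fun i' => ?_) fun i' hi' => (inner i' hi').1, hN' I t _ fun i' => ?_⟩
  · by_cases hi' : i' = i
    · rw [hi']
      exact hND' bad
    · exact hND (inner i' hi').1
  · by_cases hi' : i' = i
    · rw [hi']
      exact bad
    · exact (inner i' hi').2

/-- Absorption is transitive. -/
theorem abs_trans {C N D : Set A} (h : Abs 𝒞 C N) (h' : Abs 𝒞 N D) : Abs 𝒞 C D := by
  obtain ⟨hne, hC, hCN, I, hI, t, ht⟩ := h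
  obtain ⟨_, hN, hND, J, hJ, s, hs⟩ := h'
  refine ⟨hne, hC, hCN.trans hND, I × J, inferInstance, star 𝒞 t s, ?_⟩
  rintro ⟨i, j⟩ x hx hx'
  rw [int_star]
  have inner : ∀ i', i' ≠ i → Alg.int s (fun j' => x (i', j')) ∈ C := fun i' hi' =>
    hC J s _ fun j' => hx' (i', j') fun e => hi' (Prod.ext_iff.1 e).1
  have bad : Alg.int s (fun j' => x (i, j')) ∈ N := hs j _ (fun j' => hx _) fun j' hj' =>
    hCN (hx' (i, j') fun e => hj' (Prod.ext_iff.1 e).2)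
  refine ht i _ (fun i' => ?_) fun i' hi' => inner i' hi'
  by_cases hi' : i' = i
  · rw [hi']
    exact bad
  · exact hCN (inner i' hi')

/-- Restriction to a smaller set. -/
theorem abs_restrict {N D D' : Set A} (h : Abs 𝒞 N D) (h1 : N ⊆ D') (h2 : D' ⊆ D) :
    Abs 𝒞 N D' := by
  obtain ⟨hne, hN, hND, I, hI, t, ht⟩ := h
  exact ⟨hne, hN, h1, I, hI, t, fun i x hx hx' => ht i x (fun j => h2 (hx j)) hx'⟩

/-- Every nonempty subuniverse absorbs itself, if there is a term. -/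
theorem abs_refl {I : Type} [Finite I] (t : 𝒞.T I) {D : Set A} (hD : Sub 𝒞 D)
    (hne : D.Nonempty) : Abs 𝒞 D D :=
  ⟨hne, hD, subset_rfl, I, inferInstance, t, fun _ x hx _ => hD I t x hx⟩

theorem abs_self {D : Set A} (hD : Sub 𝒞 D) (hne : D.Nonempty) : Abs 𝒞 D D :=
  abs_refl (𝒞.pr ()) hD hne

/-- Preimages of absorbing subuniverses. -/
theorem abs_preimage {f : A → B} (hf : Hm 𝒞 f) {D : Set A} (hD : Sub 𝒞 D) {N E : Set B}
    (h : Abs 𝒞 N E) (hDE : ∀ a ∈ D, f a ∈ E) (hne : (D ∩ f ⁻¹' N).Nonempty) :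
    Abs 𝒞 (D ∩ f ⁻¹' N) D := by
  obtain ⟨_, hN, _, I, hI, t, ht⟩ := h
  refine ⟨hne, sub_inter hD (sub_preimage hf hN), fun a ha => ha.1, I, hI, t, ?_⟩
  intro i x hx hx'
  refine ⟨hD I t x hx, ?_⟩
  change f _ ∈ N
  rw [hf]
  exact ht i _ (fun j => hDE _ (hx j)) fun j hj => (hx' j hj).2

/-- Images of absorbing subuniverses. -/
theorem abs_image {f : A → B} (hf : Hm 𝒞 f) {N D : Set A} (h : Abs 𝒞 N D) :
    Abs 𝒞 (f '' N) (f '' D) := by
  obtain ⟨hne, hN, hND, I, hI, t, ht⟩ := h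
  refine ⟨hne.image f, sub_image hf hN, Set.image_mono hND, I, hI, t, ?_⟩
  classical
  intro i x hx hx'
  choose y hy using hx
  have hz : ∀ j, ∃ z, (z ∈ D) ∧ (j ≠ i → z ∈ N) ∧ f z = x j := by
    intro j
    by_cases hj : j = i
    · exact ⟨y j, (hy j).1, fun h => (h hj).elim, (hy j).2⟩
    · obtain ⟨z, h1, h2⟩ := hx' j hj
      exact ⟨z, hND h1, fun _ => h1, h2⟩
  choose z hz using hz
  refine ⟨Alg.int t z, ht i z (fun j => (hz j).1) fun j hj => (hz j).2.1 hj, ?_⟩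
  rw [hf]
  congr 1
  funext j
  exact (hz j).2.2

/-- Images of absorption-free subuniverses. -/
theorem af_image {f : A → B} (hf : Hm 𝒞 f) {D : Set A} (h : AF 𝒞 D) : AF 𝒞 (f '' D) := by
  obtain ⟨hne, hD, hAF⟩ := h
  refine ⟨hne.image f, sub_image hf hD, fun N hN => ?_⟩
  have h1 : (D ∩ f ⁻¹' N).Nonempty := by
    obtain ⟨b, hb⟩ := hN.1
    obtain ⟨a, ha, rfl⟩ := hN.2.2.1 hb
    exact ⟨a, ha, hb⟩
  have h2 := hAF _ (abs_preimage hf hD hN (fun a ha => ⟨a, ha, rfl⟩) h1)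
  refine subset_antisymm hN.2.2.1 ?_
  rintro b ⟨a, ha, rfl⟩
  rw [← h2] at ha
  exact ha.2

/-- Every nonempty subuniverse of a finite algebra has a minimal absorbing subuniverse. -/
theorem exists_mn [Finite A] {D : Set A} (hD : Sub 𝒞 D) (hne : D.Nonempty) :
    ∃ N, Mn 𝒞 N D := by
  have hfin : {N : Set A | Abs 𝒞 N D}.Finite := Set.toFinite _
  obtain ⟨N, hN, hmin⟩ := hfin.exists_minimal ⟨D, abs_self hD hne⟩
  refine ⟨N, hN, hN.1, hN.2.1, fun K hK => ?_⟩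
  exact subset_antisymm hK.2.2.1 (hmin (abs_trans hK hN) hK.2.2.1)

/-- A minimal absorbing subuniverse which meets an absorbing subuniverse is contained in it. -/
theorem Mn.subset {K X D : Set A} (hK : Mn 𝒞 K D) (hX : Abs 𝒞 X D) (h : (K ∩ X).Nonempty) :
    K ⊆ X := by
  have h1 := abs_restrict (abs_inter hK.1 hX h) Set.inter_subset_left hK.1.2.2.1
  have h2 := hK.2.2.2 _ h1
  intro a ha
  rw [← h2] at ha
  exact ha.2

/-- Different minimal absorbing subuniverses are disjoint. -/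
theorem Mn.eq {K K' D : Set A} (hK : Mn 𝒞 K D) (hK' : Mn 𝒞 K' D) (h : (K ∩ K').Nonempty) :
    K = K' :=
  subset_antisymm (hK.subset hK'.1 h) (hK'.subset hK.1 (by rwa [Set.inter_comm]))

theorem Mn.trans {N V D : Set A} (hN : Mn 𝒞 N V) (hV : Abs 𝒞 V D) : Mn 𝒞 N D :=
  ⟨abs_trans hN.1 hV, hN.2⟩

theorem Mn.restrict {N V D : Set A} (hN : Mn 𝒞 N D) (hV : N ⊆ V) (hVD : V ⊆ D) : Mn 𝒞 N V :=
  ⟨abs_restrict hN.1 hV hVD, hN.2⟩

theorem Mn.image {f : A → B} (hf : Hm 𝒞 f) {N D : Set A} (h : Mn 𝒞 N D) :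
    Mn 𝒞 (f '' N) (f '' D) :=
  ⟨abs_image hf h.1, af_image hf h.2⟩

end basic

section tuples

variable {𝒞 : Cln} {A : Type} [Alg 𝒞 A] {p : ℕ}

theorem hm_eval {K : Type} (k : K) : Hm 𝒞 (fun x : K → A => x k) := fun _ _ _ _ => rfl

theorem hm_win (i : ZMod p) (k : ℕ) : Hm 𝒞 (fun r : ZMod p → A => win i k r) :=
  fun _ _ _ _ => rfl

theorem hm_sh : Hm 𝒞 (fun r : ZMod p → A => sh r) := fun _ _ _ _ => rfl

end tuples

end Pool.Agent.H58.CT
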