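import Mathlib

/-!
# Cyclic terms of finite idempotent algebras: definitions

Abstract clones, their finite idempotent algebras, subuniverses, absorption, linked relations.
All terms have finite arities `I : Type` (`[Finite I]`).
-/

set_option autoImplicit false

namespace Pool.Agent.H58.CT

/-- An abstract clone: `T I` are the terms with the variables `I`. (The laws are not needed: they
are required for the interpretations in the algebras.) -/
structure Cln where
  T : Type → Type
  pr : ∀ {I : Type}, I → T I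
  comp : ∀ {I J : Type}, T I → (I → T J) → T J

/-- Idempotent algebras of the clone `𝒞`. -/
class Alg (𝒞 : Cln) (A : Type) where
  int : ∀ {I : Type} [Finite I], 𝒞.T I → (I → A) → A
  int_pr : ∀ {I : Type} [Finite I] (i : I) (x : I → A), int (𝒞.pr i) x = x i
  int_comp : ∀ {I J : Type} [Finite I] [Finite J] (t : 𝒞.T I) (s : I → 𝒞.T J) (x : J → A),
    int (𝒞.comp t s) x = int t (fun i => int (s i) x)
  idem : ∀ {I : Type} [Finite I] (t : 𝒞.T I) (a : A), int t (fun _ => a) = a

/-- There is no homomorphism from `𝒞` to the clone of projections. -/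
def NoPrj (𝒞 : Cln) : Prop :=
  ¬ ∃ ι : ∀ (I : Type) [Finite I], 𝒞.T I → I,
    (∀ (I : Type) [Finite I] (i : I), ι I (𝒞.pr i) = i) ∧
    ∀ (I J : Type) [Finite I] [Finite J] (t : 𝒞.T I) (s : I → 𝒞.T J),
      ι J (𝒞.comp t s) = ι J (s (ι I t))

section algebras

variable (𝒞 : Cln) {A B : Type} [Alg 𝒞 A] [Alg 𝒞 B]

/-- powers -/
instance instPi (K : Type) : Alg 𝒞 (K → A) where
  int t x := fun k => Alg.int t (fun i => x i k)
  int_pr i x := funext fun k => Alg.int_pr i _
  int_comp t s x := funext fun k => Alg.int_comp t s _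
  idem t a := funext fun k => Alg.idem t (a k)

/-- products -/
instance instProd : Alg 𝒞 (A × B) where
  int t x := (Alg.int t (fun i => (x i).1), Alg.int t (fun i => (x i).2))
  int_pr i x := Prod.ext (Alg.int_pr i _) (Alg.int_pr i _)
  int_comp t s x := Prod.ext (Alg.int_comp t s _) (Alg.int_comp t s _)
  idem t a := Prod.ext (Alg.idem t a.1) (Alg.idem t a.2)

/-- subuniverses -/
def Sub (D : Set A) : Prop :=
  ∀ (I : Type) [Finite I] (t : 𝒞.T I) (x : I → A), (∀ i, x i ∈ D) → Alg.int t x ∈ D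

/-- homomorphisms -/
def Hm (f : A → B) : Prop :=
  ∀ (I : Type) [Finite I] (t : 𝒞.T I) (x : I → A),
    f (Alg.int t x) = Alg.int t (fun i => f (x i))

/-- `t` absorbs `N` in `D`. -/
def AbsBy {I : Type} [Finite I] (t : 𝒞.T I) (N D : Set A) : Prop :=
  ∀ (i : I) (x : I → A), (∀ j, x j ∈ D) → (∀ j, j ≠ i → x j ∈ N) → Alg.int t x ∈ N

/-- `N` is an absorbing subuniverse of `D`. -/
def Abs (N D : Set A) : Prop :=
  N.Nonempty ∧ Sub 𝒞 N ∧ N ⊆ D ∧ ∃ (I : Type) (_ : Finite I) (t : 𝒞.T I), AbsBy 𝒞 t N D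

/-- `D` is an absorption-free subuniverse. -/
def AF (D : Set A) : Prop :=
  D.Nonempty ∧ Sub 𝒞 D ∧ ∀ N : Set A, Abs 𝒞 N D → N = D

/-- `N` is a minimal absorbing subuniverse of `D`. -/
def Mn (N D : Set A) : Prop :=
  Abs 𝒞 N D ∧ AF 𝒞 N

/-- congruences -/
structure Cong (r : A → A → Prop) : Prop where
  eqv : Equivalence r
  cmp : ∀ (I : Type) [Finite I] (t : 𝒞.T I) (x y : I → A), (∀ i, r (x i) (y i)) →
    r (Alg.int t x) (Alg.int t y)

/-- `A` is simple (or has at most one element). -/
def Smp (A : Type) [Alg 𝒞 A] : Prop :=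
  ∀ r : A → A → Prop, Cong 𝒞 r → (∀ a b, r a b → a = b) ∨ ∀ a b, r a b

end algebras

section linked

variable {E A B : Type}

/-- a step inside `R` which preserves the value of `f` or of `g` -/
def Stp (R : Set E) (f : E → A) (g : E → B) (a b : E) : Prop :=
  a ∈ R ∧ b ∈ R ∧ (f a = f b ∨ g a = g b)

/-- The relation `{(f r, g r) | r ∈ R}` is linked. -/
def Lnk (R : Set E) (f : E → A) (g : E → B) : Prop :=
  ∀ a ∈ R, ∀ b ∈ R, Relation.ReflTransGen (Stp R f g) a b

end linked

section cyclic

variable {A : Type} {p : ℕ}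

/-- the shift of the tuple `r` -/
def sh (r : ZMod p → A) : ZMod p → A := fun j => r (j + 1)

/-- the window of length `k` which starts at `i` -/
def win (i : ZMod p) (k : ℕ) (r : ZMod p → A) : Fin k → A := fun j => r (i + ((j : ℕ) : ZMod p))

/-- coordinate `j` of the tuples in `N` -/
def co (j : ZMod p) (N : Set (ZMod p → A)) : Set A := (fun r => r j) '' N

/-- The step from `N` to `N'`: both are minimal absorbing subuniverses of `R`, and they have
elements which agree on a window of length `k`. -/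
def WStp (𝒞 : Cln) [Alg 𝒞 A] (R : Set (ZMod p → A)) (k : ℕ) (N N' : Set (ZMod p → A)) : Prop :=
  Mn 𝒞 N R ∧ Mn 𝒞 N' R ∧ ∃ i : ZMod p, ∃ n ∈ N, ∃ n' ∈ N', win i k n = win i k n'

/-- Cyclic subdirect subuniverses of the power `A ^ p` of a simple algebra such that all
projections to two different coordinates are linked. -/
structure Cyc (𝒞 : Cln) [Alg 𝒞 A] (R : Set (ZMod p → A)) : Prop where
  ne : R.Nonempty
  sub : Sub 𝒞 R
  shift : ∀ r ∈ R, sh r ∈ R
  surj : ∀ a : A, ∃ r ∈ R, r 0 = a
  lnk : ∀ i j : ZMod p, i ≠ j → Lnk R (fun r => r i) (fun r => r j)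

/-- The windows of length `j` and the next coordinate are linked, for `1 ≤ j < k`. -/
def LkBelow (R : Set (ZMod p → A)) (k : ℕ) : Prop :=
  ∀ j : ℕ, 1 ≤ j → j < k → ∀ i : ZMod p, Lnk R (win i j) (fun r => r (i + ((j : ℕ) : ZMod p)))

end cyclic

end Pool.Agent.H58.CT
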